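import Mathlib
import Pool.Agent.R982.MutH

/-!
# The connectivity threshold of the mutual-preference random graph is `c = 1`

The costs of the edges of `K_n` are i.i.d. exponential with rate `1/n`; vertex `i` prefers the
edge `{i, j}` when fewer than `k` edges at `i` are strictly cheaper than `{i, j}`; the graph
`mutualGraph k ω` keeps the edges preferred by both end points.
-/

open Filter Topology MeasureTheory

namespace Pool.Agent.Results.MP_ba8b4a_pr.ConnectivityThreshold

open Pool.Agent.R982.Mut

/-- the law of the costs: independent, exponential with rate `1/n`, one cost for every unordered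
pair (the entries of the diagonal pairs are never used by `mutualGraph`) -/
noncomputable def edgeCosts (n : ℕ) : Measure (Sym2 (Fin n) → ℝ) :=
  Measure.pi fun _ => ProbabilityTheory.expMeasure (1 / (n : ℝ))

/-- the probability that the mutual preference graph on `n` vertices with potential degree `k`
is connected -/
noncomputable def probConnected (n k : ℕ) : ℝ :=
  (edgeCosts n).real {ω | (mutualGraph k ω).Connected}

theorem result :
    (∀ c : ℝ, 1 < c →
      Tendsto (fun n : ℕ => probConnected n ⌊c * Real.log n⌋₊) atTop (𝓝 1)) ∧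
    (∀ c : ℝ, 0 < c → c < 1 →
      Tendsto (fun n : ℕ => probConnected n ⌊c * Real.log n⌋₊) atTop (𝓝 0)) ∧
    (∀ (c : ℝ) (k : ℕ → ℕ), 1 < c → (∀ᶠ n : ℕ in atTop, c * Real.log n ≤ k n) →
      Tendsto (fun n : ℕ => probConnected n (k n)) atTop (𝓝 1)) ∧
    (∀ (c : ℝ) (k : ℕ → ℕ), c < 1 → (∀ᶠ n : ℕ in atTop, (k n : ℝ) ≤ c * Real.log n) →
      Tendsto (fun n : ℕ => probConnected n (k n)) atTop (𝓝 0)) ∧
    (∀ n k : ℕ, MeasurableSet {ω : Sym2 (Fin n) → ℝ | (mutualGraph k ω).Connected}) := by
  have hν : ∀ᶠ n : ℕ in atTop,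
      IsProbabilityMeasure (ProbabilityTheory.expMeasure (1 / (n : ℝ))) ∧
        HasQuantiles (ProbabilityTheory.expMeasure (1 / (n : ℝ))) := by
    filter_upwards [eventually_ge_atTop 1] with n hn
    have hr : (0 : ℝ) < 1 / n := by positivity
    exact ⟨ProbabilityTheory.isProbabilityMeasure_expMeasure hr, hasQuantiles_exp hr⟩
  have hup : ∀ (c : ℝ) (k : ℕ → ℕ), 1 < c → (∀ᶠ n : ℕ in atTop, c * Real.log n ≤ k n) →
      Tendsto (fun n : ℕ => probConnected n (k n)) atTop (𝓝 1) := fun c k hc hk =>
    upper (fun n : ℕ => ProbabilityTheory.expMeasure (1 / (n : ℝ))) hν k hc hk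
  have hlow : ∀ (c : ℝ) (k : ℕ → ℕ), c < 1 →
      (∀ᶠ n : ℕ in atTop, (k n : ℝ) ≤ c * Real.log n) →
      Tendsto (fun n : ℕ => probConnected n (k n)) atTop (𝓝 0) := fun c k hc hk =>
    lower (fun n : ℕ => ProbabilityTheory.expMeasure (1 / (n : ℝ))) hν k hc hk
  refine ⟨?_, ?_, hup, hlow, meas_conn⟩
  · intro c hc
    refine hup ((1 + c) / 2) _ (by linarith) ?_
    have h1 : Tendsto (fun n : ℕ => (c - 1) / 2 * Real.log n) atTop atTop :=
      tendsto_log_nat.const_mul_atTop (by linarith)
    filter_upwards [h1.eventually_ge_atTop 1] with n hn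
    have h2 : c * Real.log n < ⌊c * Real.log n⌋₊ + 1 := Nat.lt_floor_add_one _
    linarith
  · intro c hc0 hc1
    refine hlow c _ hc1 (Eventually.of_forall fun n => ?_)
    exact Nat.floor_le (mul_nonneg hc0.le (Real.log_natCast_nonneg n))

end Pool.Agent.Results.MP_ba8b4a_pr.ConnectivityThreshold
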